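import Pool.Agent.H53.CircAlpha
import Pool.Agent.H53.CircNat

/-!
# The circulant graphs `G_t` are doubly saturated `R(3,t)`-good for every odd `t ≥ 17`
-/

open Pool.Agent.H53.Circ

namespace Pool.Agent.Results.MP_cd685f_co.AllOddT

/-- `G` is `R(s,t)`-good: no clique on `s` vertices, no independent set on `t` vertices. -/
def Good {V : Type} (s t : ℕ) (G : SimpleGraph V) : Prop := G.CliqueFree s ∧ G.IndepSetFree t

/-- `G` is doubly saturated `R(s,t)`-good. -/
def DoublySaturated {V : Type} (s t : ℕ) (G : SimpleGraph V) : Prop :=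
  Good s t G ∧
  (∀ x y : V, x ≠ y → ¬ G.Adj x y → ¬ Good s t (G ⊔ SimpleGraph.edge x y)) ∧
  (∀ x y : V, G.Adj x y → ¬ Good s t (G.deleteEdges {s(x, y)})) ∧
  G ≠ ⊤ ∧ Gᶜ ≠ ⊤

/-- The circulant graph `C_n(D)` on `ℤ/n`: distinct `i, j` are adjacent iff `i - j ≡ ± d` for
some `d ∈ D`. -/
def circ (n : ℕ) (D : Finset ℕ) : SimpleGraph (ZMod n) :=
  SimpleGraph.circulantGraph ((fun d : ℕ => (d : ZMod n)) '' (D : Set ℕ))

/-- The set `D_t` of differences. -/
def Dt (t : ℕ) : Finset ℕ :=
  Finset.Icc (t - 4) (t - 3) ∪ Finset.Icc (t + 1) ((3 * t - 9) / 2) ∪ {(3 * t - 5) / 2} ∪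
    {2 * t - 4}

/-- The graph `G_t`. -/
def G (t : ℕ) : SimpleGraph (ZMod (5 * t - 10)) := circ (5 * t - 10) (Dt t)

theorem mem_Dt {t d : ℕ} : d ∈ Dt t ↔ (t - 4 ≤ d ∧ d ≤ t - 3) ∨
    (t + 1 ≤ d ∧ d ≤ (3 * t - 9) / 2) ∨ d = (3 * t - 5) / 2 ∨ d = 2 * t - 4 := by
  simp only [Dt, Finset.mem_union, Finset.mem_Icc, Finset.mem_singleton]
  tauto

theorem dd_iff {u δ : ℕ} (hu : 15 ≤ u) (hodd : u % 2 = 1) (h0 : 0 < δ) (h : δ < 5 * u) :
    (δ ∈ Dt (u + 2) ∨ 5 * u - δ ∈ Dt (u + 2)) ↔
      EE u (if 2 * δ < 5 * u then 2 * δ else 2 * δ - 5 * u) := by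
  rw [mem_Dt, mem_Dt]
  unfold EE
  constructor
  · rintro ((h1 | h1 | h1 | h1) | (h1 | h1 | h1 | h1)) <;> split_ifs <;> omega
  · split_ifs with h2
    · rintro (h1 | h1 | h1 | h1 | h1 | h1 | h1 | h1 | h1 | h1 | h1 | h1 | h1) <;> omega
    · rintro (h1 | h1 | h1 | h1 | h1 | h1 | h1 | h1 | h1 | h1 | h1 | h1 | h1) <;> omega

section

variable {u : ℕ} (hu : 15 ≤ u) (hodd : u % 2 = 1)

include hu in
theorem neZero : NeZero (5 * u) := ⟨by omega⟩

include hu hodd in
theorem adj_iff (x y : ZMod (5 * u)) :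
    (circ (5 * u) (Dt (u + 2))).Adj x y ↔ EE u (2 * (y - x)).val := by
  haveI := neZero hu
  unfold circ
  rw [SimpleGraph.circulantGraph_adj]
  by_cases hxy : x = y
  · subst hxy
    simp only [not_true_eq_false, false_and, sub_self, mul_zero, ZMod.val_zero, false_iff]
    unfold EE; omega
  · have hne : y - x ≠ 0 := sub_ne_zero.2 (Ne.symm hxy)
    set δ := (y - x).val with hδ
    have hδlt : δ < 5 * u := ZMod.val_lt _
    have hδ0 : 0 < δ := by
      rw [hδ]
      exact Nat.pos_of_ne_zero (fun h => hne ((ZMod.val_eq_zero _).1 h))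
    have hyx : y - x = (δ : ZMod (5 * u)) := (ZMod.natCast_zmod_val _).symm
    have hDlt : ∀ d ∈ Dt (u + 2), d < 5 * u := by
      intro d hd
      rw [mem_Dt] at hd
      omega
    have h1 : y - x ∈ ((fun d : ℕ => (d : ZMod (5 * u))) '' (Dt (u + 2) : Set ℕ)) ↔
        δ ∈ Dt (u + 2) := by
      constructor
      · rintro ⟨d, hd, hde⟩
        have h2 := congrArg ZMod.val hde
        rw [ZMod.val_natCast, Nat.mod_eq_of_lt (hDlt d hd), ← hδ] at h2
        rw [← h2]; exact hd
      · intro h2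
        exact ⟨δ, h2, hyx.symm⟩
    have h2 : x - y ∈ ((fun d : ℕ => (d : ZMod (5 * u))) '' (Dt (u + 2) : Set ℕ)) ↔
        5 * u - δ ∈ Dt (u + 2) := by
      have h3 : x - y = ((5 * u - δ : ℕ) : ZMod (5 * u)) := by
        rw [Nat.cast_sub hδlt.le, ← hyx]
        simp
      constructor
      · rintro ⟨d, hd, hde⟩
        have h4 := congrArg ZMod.val hde
        rw [h3, ZMod.val_natCast, ZMod.val_natCast, Nat.mod_eq_of_lt (hDlt d hd),
          Nat.mod_eq_of_lt (by omega)] at h4
        rw [← h4]; exact hd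
      · intro h4
        exact ⟨5 * u - δ, h4, h3.symm⟩
    have h3 : (2 * (y - x)).val = if 2 * δ < 5 * u then 2 * δ else 2 * δ - 5 * u := by
      have h4 : 2 * (y - x) = ((2 * δ : ℕ) : ZMod (5 * u)) := by
        rw [hyx]; push_cast; ring
      rw [h4, ZMod.val_natCast]
      split_ifs with h5
      · exact Nat.mod_eq_of_lt h5
      · rw [Nat.mod_eq_sub_mod (by omega), Nat.mod_eq_of_lt (by omega)]
    rw [h1, h2, h3, ← dd_iff hu hodd hδ0 hδlt]
    constructor
    · rintro ⟨_, h | h⟩
      · exact Or.inr h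
      · exact Or.inl h
    · rintro (h | h)
      · exact ⟨hxy, Or.inr h⟩
      · exact ⟨hxy, Or.inl h⟩

/-- Doubled coordinates. -/
def psi (u : ℕ) (x : ZMod (5 * u)) : ℕ := (2 * x).val

include hu in
theorem val_sub_eq (a b : ZMod (5 * u)) :
    (b - a).val = if a.val ≤ b.val then b.val - a.val else 5 * u - (a.val - b.val) := by
  haveI := neZero hu
  split_ifs with h
  · exact ZMod.val_sub h
  · have h1 := ZMod.val_lt a
    have h2 := ZMod.val_lt b
    have h3 : b - a = ((5 * u - (a.val - b.val) : ℕ) : ZMod (5 * u)) := by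
      rw [Nat.cast_sub (by omega), Nat.cast_sub (by omega), ZMod.natCast_zmod_val,
        ZMod.natCast_zmod_val]
      simp
    rw [h3, ZMod.val_natCast, Nat.mod_eq_of_lt (by omega)]

include hu hodd in
theorem adj_iff' (x y : ZMod (5 * u)) : (circ (5 * u) (Dt (u + 2))).Adj x y ↔
    (psi u x < psi u y ∧ EE u (psi u y - psi u x)) ∨
    (psi u y < psi u x ∧ EE u (psi u x - psi u y)) := by
  haveI := neZero hu
  rw [adj_iff hu hodd, mul_sub, val_sub_eq hu]
  have h1 := ZMod.val_lt (2 * x)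
  have h2 := ZMod.val_lt (2 * y)
  unfold psi
  split_ifs with h
  · rcases Nat.lt_or_eq_of_le h with h3 | h3
    · constructor
      · intro h4; exact Or.inl ⟨h3, h4⟩
      · rintro (⟨_, h4⟩ | ⟨h4, _⟩)
        · exact h4
        · omega
    · rw [h3]
      constructor
      · intro h4; exfalso; unfold EE at h4; omega
      · rintro (⟨h4, _⟩ | ⟨h4, _⟩) <;> omega
  · rw [EE_symm hu (by omega)]
    constructor
    · intro h4; exact Or.inr ⟨by omega, h4⟩
    · rintro (⟨h4, _⟩ | ⟨_, h4⟩)
      · omega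
      · exact h4

/-- The inverse of doubling. -/
def theta (u w : ℕ) : ZMod (5 * u) := (w : ZMod (5 * u)) * (((5 * u + 1) / 2 : ℕ) : ZMod (5 * u))

include hodd in
theorem two_theta (w : ℕ) : 2 * theta u w = (w : ZMod (5 * u)) := by
  unfold theta
  have h1 : (2 : ZMod (5 * u)) * (((5 * u + 1) / 2 : ℕ) : ZMod (5 * u)) = 1 := by
    have h2 : 2 * ((5 * u + 1) / 2) = 5 * u + 1 := by omega
    have h3 : ((2 * ((5 * u + 1) / 2) : ℕ) : ZMod (5 * u)) = ((5 * u + 1 : ℕ) : ZMod (5 * u)) := by
      rw [h2]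
    push_cast at h3
    have h4 : (5 : ZMod (5 * u)) * (u : ZMod (5 * u)) = 0 := by
      have := ZMod.natCast_self (5 * u)
      push_cast at this
      exact this
    rw [h4, zero_add] at h3
    push_cast
    exact h3
  calc 2 * ((w : ZMod (5 * u)) * (((5 * u + 1) / 2 : ℕ) : ZMod (5 * u)))
      = (w : ZMod (5 * u)) * (2 * (((5 * u + 1) / 2 : ℕ) : ZMod (5 * u))) := by ring
    _ = (w : ZMod (5 * u)) := by rw [h1, mul_one]

include hodd in
theorem two_cancel {x y : ZMod (5 * u)} (h : 2 * x = 2 * y) : x = y := by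
  have h1 := two_theta hodd 1
  have h2 : ∀ z : ZMod (5 * u), theta u 1 * (2 * z) = z := by
    intro z
    calc theta u 1 * (2 * z) = (2 * theta u 1) * z := by ring
      _ = z := by rw [h1]; simp
  rw [← h2 x, ← h2 y, h]

include hu hodd in
theorem psi_inj : Function.Injective (psi u) := by
  haveI := neZero hu
  intro x y h
  exact two_cancel hodd (ZMod.val_injective _ h)

include hu hodd in
theorem psi_add_theta (x : ZMod (5 * u)) (w : ℕ) :
    psi u (x + theta u w) = (psi u x + w) % (5 * u) := by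
  haveI := neZero hu
  unfold psi
  rw [mul_add, two_theta hodd]
  rw [ZMod.val_add, ZMod.val_natCast, Nat.add_mod_mod]

include hu hodd in
theorem adj_theta (x : ZMod (5 * u)) {v w : ℕ} (hvw : v < w) (hw : w < 5 * u) :
    (circ (5 * u) (Dt (u + 2))).Adj (x + theta u v) (x + theta u w) ↔ EE u (w - v) := by
  haveI := neZero hu
  rw [adj_iff hu hodd]
  have h1 : 2 * (x + theta u w - (x + theta u v)) = ((w - v : ℕ) : ZMod (5 * u)) := by
    rw [Nat.cast_sub hvw.le, ← two_theta hodd w, ← two_theta hodd v]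
    ring
  rw [h1, ZMod.val_natCast, Nat.mod_eq_of_lt (by omega)]

include hu hodd in
theorem good : Good 3 (u + 2) (circ (5 * u) (Dt (u + 2))) := by
  haveI := neZero hu
  constructor
  · intro s hs
    rw [SimpleGraph.is3Clique_iff] at hs
    obtain ⟨a, b, c, hab, hac, hbc, _⟩ := hs
    rw [adj_iff' hu hodd] at hab hac hbc
    generalize psi u a = p at *
    generalize psi u b = q at *
    generalize psi u c = r at *
    have key : ∀ x y z : ℕ, x < y → y < z → EE u (y - x) → EE u (z - y) → EE u (z - x) →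
        False := by
      intro x y z hxy hyz h1 h2 h3
      refine no_tri hu h1 h2 ?_
      rw [show y - x + (z - y) = z - x by omega]; exact h3
    rcases hab with ⟨h1, h2⟩ | ⟨h1, h2⟩ <;> rcases hac with ⟨h3, h4⟩ | ⟨h3, h4⟩ <;>
      rcases hbc with ⟨h5, h6⟩ | ⟨h5, h6⟩
    · exact key p q r h1 h5 h2 h6 h4
    · exact key p r q h3 h5 h4 h6 h2
    · omega
    · exact key r p q h3 h1 h4 h2 h6
    · exact key q p r h1 h3 h2 h4 h6
    · omega
    · exact key q r p h5 h3 h6 h4 h2
    · exact key r q p h5 h1 h6 h2 h4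
  · intro s hs
    have h1 : Ind u (s.image (psi u)) := by
      constructor
      · intro z hz
        obtain ⟨x, _, rfl⟩ := Finset.mem_image.1 hz
        exact ZMod.val_lt _
      · intro z hz z' hz' hzz hE
        obtain ⟨x, hx, rfl⟩ := Finset.mem_image.1 hz
        obtain ⟨y, hy, rfl⟩ := Finset.mem_image.1 hz'
        have hne : x ≠ y := by rintro rfl; exact absurd hzz (lt_irrefl _)
        exact hs.isIndepSet (Finset.mem_coe.2 hx) (Finset.mem_coe.2 hy) hne
          ((adj_iff' hu hodd x y).2 (Or.inl ⟨hzz, hE⟩))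
    have h2 := alpha_le u hu hodd _ h1
    rw [Finset.card_image_of_injective _ (psi_inj hu hodd), hs.card_eq] at h2
    omega

include hu hodd in
theorem add_edge (x y : ZMod (5 * u)) (hxy : x ≠ y)
    (hadj : ¬ (circ (5 * u) (Dt (u + 2))).Adj x y) :
    ¬ Good 3 (u + 2) (circ (5 * u) (Dt (u + 2)) ⊔ SimpleGraph.edge x y) := by
  haveI := neZero hu
  intro hgood
  -- a common neighbour
  have hcommon : ∃ z, (circ (5 * u) (Dt (u + 2))).Adj x z ∧
      (circ (5 * u) (Dt (u + 2))).Adj z y := by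
    rw [adj_iff hu hodd] at hadj
    have h0 : 0 < (2 * (y - x)).val := by
      apply Nat.pos_of_ne_zero
      intro h
      have h1 := (ZMod.val_eq_zero _).1 h
      have h2 : y - x = 0 := two_cancel hodd (by rw [h1, mul_zero])
      exact hxy (sub_eq_zero.1 h2).symm
    obtain ⟨e, he, he1, he2⟩ := diam hu hodd h0 (ZMod.val_lt _) hadj
    refine ⟨x + theta u e, ?_, ?_⟩
    · rw [adj_iff hu hodd]
      rw [show 2 * (x + theta u e - x) = 2 * theta u e by ring, two_theta hodd,
        ZMod.val_natCast, Nat.mod_eq_of_lt he]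
      exact he1
    · rw [adj_iff hu hodd]
      rw [show 2 * (y - (x + theta u e)) = 2 * (y - x) - 2 * theta u e by ring, two_theta hodd,
        val_sub_eq hu, ZMod.val_natCast, Nat.mod_eq_of_lt he]
      rcases he2 with ⟨h1, h2⟩ | ⟨h1, h2⟩
      · rw [if_pos h1.le]; exact h2
      · rw [if_neg (by omega), EE_symm hu (by omega)]; exact h2
  obtain ⟨z, hxz, hzy⟩ := hcommon
  refine hgood.1 {x, z, y} ?_
  rw [SimpleGraph.is3Clique_iff]
  refine ⟨x, z, y, Or.inl hxz, ?_, Or.inl hzy, rfl⟩
  right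
  rw [SimpleGraph.edge_adj]
  exact ⟨Or.inl ⟨rfl, rfl⟩, hxy⟩

/-- The sets with exactly one edge, for all differences in the first half. -/
theorem oneEdge_15 : OneEdge 15 37
    {0, 37, 45, 48, 50, 51, 53, 55, 56, 57, 58, 59, 61, 62, 64, 67, 69} := by
  unfold OneEdge
  decide +kernel

include hu hodd in
theorem exists_oneEdge {e : ℕ} (he : EE u e) (he2 : 2 * e < 5 * u) : ∃ S, OneEdge u e S := by
  unfold EE at he
  by_cases h1 : e = u
  · subst h1; exact oneEdge_u hu
  by_cases h2 : e < 2 * u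
  · obtain ⟨j, hj⟩ : ∃ j, e = 2 * u - j := ⟨2 * u - e, by omega⟩
    rw [hj]
    exact oneEdge_minus hu (by omega)
  obtain ⟨c, hc⟩ : ∃ c, e = 2 * u + c := ⟨e - 2 * u, by omega⟩
  by_cases h3 : c + 9 ≤ u
  · rw [hc]; exact oneEdge_plus hu (by omega) (by omega) h3
  · have h15 : u = 15 := by omega
    have h37 : e = 37 := by omega
    subst h15; subst h37
    exact ⟨_, oneEdge_15⟩

include hu hodd in
theorem delete_edge_aux (x y : ZMod (5 * u)) (hE : EE u (2 * (y - x)).val)
    (hs : 2 * (2 * (y - x)).val < 5 * u) :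
    ¬ Good 3 (u + 2) ((circ (5 * u) (Dt (u + 2))).deleteEdges {s(x, y)}) := by
  haveI := neZero hu
  intro hgood
  set e := (2 * (y - x)).val with he
  obtain ⟨S, hS1, hS2, hS3, hS4, hS5⟩ := exists_oneEdge hu hodd hE hs
  have hy : y = x + theta u e := by
    apply two_cancel hodd
    rw [mul_add, two_theta hodd, he, ZMod.natCast_zmod_val]
    ring
  have hx : x = x + theta u 0 := by
    unfold theta; simp
  have hpsi : ∀ v, psi u (x + theta u v) = (psi u x + v) % (5 * u) := psi_add_theta hu hodd x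
  have hinj : Set.InjOn (fun w => x + theta u w) (S : Set ℕ) := by
    intro v hv w hw hvw
    have h1 : theta u v = theta u w := add_left_cancel hvw
    have h2 : (v : ZMod (5 * u)) = (w : ZMod (5 * u)) := by
      rw [← two_theta hodd v, ← two_theta hodd w, h1]
    have h3 := congrArg ZMod.val h2
    rwa [ZMod.val_natCast, ZMod.val_natCast, Nat.mod_eq_of_lt (hS1 v hv),
      Nat.mod_eq_of_lt (hS1 w hw)] at h3
  refine hgood.2 (S.image (fun w => x + theta u w)) ⟨?_, ?_⟩
  · -- independence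
    have key : ∀ v ∈ S, ∀ w ∈ S, v < w →
        ¬ ((circ (5 * u) (Dt (u + 2))).deleteEdges {s(x, y)}).Adj
          (x + theta u v) (x + theta u w) := by
      intro v hv w hw hvw hadj
      rw [SimpleGraph.deleteEdges_adj, adj_theta hu hodd x hvw (hS1 w hw)] at hadj
      obtain ⟨h1, h2⟩ := hS5 v hv w hw hvw hadj.1
      apply hadj.2
      rw [h1, h2, ← hx, ← hy]
      exact Set.mem_singleton _
    intro a ha b hb hab hadj
    simp only [Finset.coe_image, Set.mem_image, Finset.mem_coe] at ha hb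
    obtain ⟨v, hv, rfl⟩ := ha
    obtain ⟨w, hw, rfl⟩ := hb
    rcases lt_trichotomy v w with h | h | h
    · exact key v hv w hw h hadj
    · exact hab (by rw [h])
    · exact key w hw v hv h hadj.symm
  · rw [Finset.card_image_of_injOn hinj, hS4]

include hu hodd in
theorem delete_edge (x y : ZMod (5 * u)) (hadj : (circ (5 * u) (Dt (u + 2))).Adj x y) :
    ¬ Good 3 (u + 2) ((circ (5 * u) (Dt (u + 2))).deleteEdges {s(x, y)}) := by
  haveI := neZero hu
  by_cases hs : 2 * (2 * (y - x)).val < 5 * u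
  · exact delete_edge_aux hu hodd x y ((adj_iff hu hodd x y).1 hadj) hs
  · have h1 := (adj_iff hu hodd y x).1 hadj.symm
    have h2 : (2 * (x - y)).val = 5 * u - (2 * (y - x)).val := by
      have h3 : 2 * (x - y) = 0 - 2 * (y - x) := by ring
      have h4 := (adj_iff hu hodd x y).1 hadj
      have h5 : (2 * (y - x)).val ≠ 0 := by
        intro h; rw [h] at h4; unfold EE at h4; omega
      rw [h3, val_sub_eq hu, ZMod.val_zero, if_neg (by omega), Nat.sub_zero]
    have h3 := ZMod.val_lt (2 * (y - x))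
    rw [Sym2.eq_swap]
    exact delete_edge_aux hu hodd y x h1 (by omega)

end

/-- For every odd `t ≥ 17` the circulant graph `G_t = C_{5t-10}(D_t)` is doubly saturated
`R(3,t)`-good. -/
theorem result : ∀ t : ℕ, Odd t → 17 ≤ t → DoublySaturated 3 t (G t) := by
  intro t ht h17
  obtain ⟨u, rfl⟩ : ∃ u, t = u + 2 := ⟨t - 2, by omega⟩
  have hu : 15 ≤ u := by omega
  have hodd : u % 2 = 1 := by
    obtain ⟨m, hm⟩ := ht
    omega
  have key : ∀ n, n = 5 * u → DoublySaturated 3 (u + 2) (circ n (Dt (u + 2))) := by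
    rintro n rfl
    haveI := neZero hu
    refine ⟨good hu hodd, add_edge hu hodd, delete_edge hu hodd, ?_, ?_⟩
    · intro htop
      -- `0` and the point at difference `1` are not adjacent
      have h1 : ¬ (circ (5 * u) (Dt (u + 2))).Adj (0 + theta u 0) (0 + theta u 1) := by
        rw [adj_theta hu hodd 0 (by omega) (by omega)]
        unfold EE; omega
      apply h1
      rw [htop, SimpleGraph.top_adj]
      intro h2
      have h3 : (0 : ZMod (5 * u)) = 1 := by
        have h4 := congrArg (fun z => 2 * z) h2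
        simp only [zero_add, two_theta hodd] at h4
        simpa using h4
      have h5 := congrArg ZMod.val h3
      rw [ZMod.val_zero] at h5
      have h6 : (1 : ZMod (5 * u)).val = 1 := by
        have := ZMod.val_natCast (5 * u) 1
        rw [Nat.cast_one, Nat.mod_eq_of_lt (by omega)] at this
        exact this
      omega
    · intro htop
      have h1 : (circ (5 * u) (Dt (u + 2))).Adj (0 + theta u 0) (0 + theta u u) := by
        rw [adj_theta hu hodd 0 (by omega) (by omega)]
        unfold EE; omega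
      have h2 : (circ (5 * u) (Dt (u + 2)))ᶜ.Adj (0 + theta u 0) (0 + theta u u) := by
        rw [htop, SimpleGraph.top_adj]
        exact h1.ne
      exact ((SimpleGraph.compl_adj _ _ _).1 h2).2 h1
  exact key _ (by omega)

end Pool.Agent.Results.MP_cd685f_co.AllOddT
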